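import Pool.Agent.Helper45.SP.GoalsF

/-!
MP_97d78d_ag / MP_5ff3c6_ag, packet SP LAPPR of helper45: the elements near the identity are
approximated by generators.
-/

set_option autoImplicit false

open Complex Metric Set Filter Topology
open scoped ContDiff ComplexConjugate

namespace Pool.Agent.Helper89.SP

open Pool.Agent.Helper95.Lin Pool.Agent.Helper10.SP Pool.Agent.Helper45.SP

theorem LAPPR (hLSUB : S_LSUB) (hLADD : S_LADD') : S_LAPPR := by
  intro b z₀ r A hA ρ hρ hρr κ hκ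
  by_contra hcon
  push Not at hcon
  have hk : ∀ k : ℕ, ∃ t ∈ A, ∃ s ≤ 1 / ((k : ℝ) + 1), Near z₀ ρ t.g s ∧
      ∀ V, InLL z₀ r A V → ∃ z ∈ ball z₀ ρ, κ * s < ‖t.g z - z - V z‖ := fun k =>
    hcon _ (by positivity)
  choose t ht s hs hN hV using hk
  have h0 : z₀ ∈ ball z₀ ρ := mem_ball_self hρ
  obtain ⟨hz, -, hsm⟩ := hLADD hA
  have hs0 : ∀ k, 0 < s k := by
    intro k
    rcases lt_or_ge 0 (s k) with h | h
    · exact h
    · exfalso
      obtain ⟨z, hzb, hlt⟩ := hV k _ hz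
      have h1 : ‖(t k).g z - z‖ ≤ s k := hN k z hzb
      have h2 : s k = 0 := le_antisymm h ((norm_nonneg _).trans h1)
      rw [h2, mul_zero, sub_zero] at hlt
      rw [h2] at h1
      exact absurd h1 (not_le.2 hlt)
  have hlim : Tendsto s atTop (𝓝 0) := by
    refine squeeze_zero (fun k => (hs0 k).le) hs ?_
    exact tendsto_one_div_add_atTop_nhds_zero_nat
  obtain ⟨φ, hφ, V, hVL, hev⟩ := hLSUB hA z₀ ρ hρ (ball_subset_ball hρr.le) t s ht hs0 hlim
    ⟨1, fun k => by rw [one_mul]; exact hN k⟩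
  obtain ⟨k, hk⟩ := (hev ρ hρr κ hκ).exists
  obtain ⟨z, hzb, hlt⟩ := hV (φ k) _ (hsm V hVL (s (φ k)))
  exact absurd (hk z hzb) (not_le.2 hlt)

end Pool.Agent.Helper89.SP
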