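import Pool.Agent.Helper45.SP.GoalsF

/-!
MP_97d78d_ag / MP_5ff3c6_ag, packet SP LLIM' of helper45: generators are closed under locally
uniform limits.
-/

set_option autoImplicit false

open Complex Metric Set Filter Topology
open scoped ContDiff ComplexConjugate

namespace Pool.Agent.Helper89.SP

open Pool.Agent.Helper95.Lin Pool.Agent.Helper10.SP Pool.Agent.Helper45.SP

theorem LLIM : S_LLIM' := by
  intro b z₀ r A hA W hW hW0 h
  refine ⟨hW, hW0, fun ρ hρ ε hε => ?_⟩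
  obtain ⟨V, hV, hVW⟩ := h ρ hρ (ε / 2) (by positivity)
  obtain ⟨σ₀, hσ₀, hσ⟩ := hV.2.2 ρ hρ (ε / 2) (by positivity)
  refine ⟨σ₀, hσ₀, fun σ h0 h1 => ?_⟩
  obtain ⟨t, ht, hz⟩ := hσ σ h0 h1
  refine ⟨t, ht, fun z hzb => ?_⟩
  have e1 : t.g z - z - σ • W z = (t.g z - z - σ • V z) + σ • (V z - W z) := by
    rw [smul_sub]
    abel
  have e2 : ‖σ • (V z - W z)‖ ≤ σ * (ε / 2) := by
    rw [norm_smul, Real.norm_of_nonneg h0.le]
    exact mul_le_mul_of_nonneg_left (hVW z hzb) h0.le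
  calc ‖t.g z - z - σ • W z‖ ≤ ‖t.g z - z - σ • V z‖ + ‖σ • (V z - W z)‖ := by
        rw [e1]
        exact norm_add_le _ _
    _ ≤ ε / 2 * σ + σ * (ε / 2) := add_le_add (hz z hzb) e2
    _ = ε * σ := by ring

end Pool.Agent.Helper89.SP
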