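import Pool.Agent.Helper10.SP.GoalsC

/-!
MP_97d78d_ag / MP_5ff3c6_ag, packet SP-IDM of helper10: the identity theorem for holomorphic maps into
a manifold.
-/

set_option autoImplicit false

open Complex Metric Set Filter Topology MeasureTheory
open scoped ContDiff ComplexConjugate ComplexOrder Manifold

namespace Pool.Agent.Helper89.SP

open Pool.Agent.Helper95.Lin Pool.Agent.Helper16.Abund Pool.Agent.Helper92.Orb
open Pool.Agent.Helper10.SP

universe v

/-- identity theorem on a convex open set, by restriction to complex lines -/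
theorem eqOn_convex {n : ℕ} {B : Set (Cn n)} (hB : Convex ℝ B) (hBo : IsOpen B)
    {g g' : Cn n → Cn n} (hg : DifferentiableOn ℂ g B) (hg' : DifferentiableOn ℂ g' B)
    {z₀ : Cn n} (hz₀ : z₀ ∈ B) (h : g =ᶠ[𝓝 z₀] g') : EqOn g g' B := by
  intro z hz
  set l : ℂ → Cn n := fun t => z₀ + t • (z - z₀) with hl
  have hld : Differentiable ℂ l := by
    intro t
    exact ((differentiableAt_id.smul_const (z - z₀)).const_add z₀)
  have hlc : Continuous l := hld.continuous
  have hUo : IsOpen (l ⁻¹' B) := hBo.preimage hlc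
  have hUc : Convex ℝ (l ⁻¹' B) := by
    intro s hs t ht a b ha hb hab
    have : l (a • s + b • t) = a • l s + b • l t := by
      simp only [hl]
      ext i
      simp only [Pi.add_apply, Pi.smul_apply, Pi.sub_apply, smul_eq_mul, Complex.real_smul]
      have hab' : (a : ℂ) + b = 1 := by exact_mod_cast hab
      have : z₀ i = ((a : ℂ) + b) * z₀ i := by rw [hab', one_mul]
      linear_combination this
    show l (a • s + b • t) ∈ B
    rw [this]
    exact hB hs ht ha hb hab
  have h0 : (0 : ℂ) ∈ l ⁻¹' B := by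
    show l 0 ∈ B
    simp only [hl, zero_smul, add_zero]
    exact hz₀
  have h1 : (1 : ℂ) ∈ l ⁻¹' B := by
    show l 1 ∈ B
    simp only [hl, one_smul, add_sub_cancel]
    exact hz
  have hgl : AnalyticOnNhd ℂ (g ∘ l) (l ⁻¹' B) :=
    (hg.comp hld.differentiableOn (mapsTo_preimage _ _)).analyticOnNhd hUo
  have hgl' : AnalyticOnNhd ℂ (g' ∘ l) (l ⁻¹' B) :=
    (hg'.comp hld.differentiableOn (mapsTo_preimage _ _)).analyticOnNhd hUo
  have hev : (g ∘ l) =ᶠ[𝓝 0] (g' ∘ l) := by
    have hl0 : Tendsto l (𝓝 0) (𝓝 z₀) := by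
      have := hlc.tendsto 0
      simpa only [hl, zero_smul, add_zero] using this
    exact hl0.eventually h
  have := hgl.eqOn_of_preconnected_of_eventuallyEq hgl' hUc.isPreconnected h0 hev h1
  simpa only [Function.comp, hl, one_smul, add_sub_cancel] using this

theorem idm : S_IDM.{v} := by
  intro n M _ _ _ _ V f f' hV hf hf' x hx hxf
  have hVo : IsOpen V := hf.1
  suffices hsub : V ⊆ {y | f =ᶠ[𝓝 y] f'} by
    intro y hy
    exact (hsub hy).self_of_nhds
  have hcont : ∀ y ∈ V, ContinuousAt f y := fun y hy =>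
    (hf.2.continuousOn).continuousAt (hVo.mem_nhds hy)
  have hcont' : ∀ y ∈ V, ContinuousAt f' y := fun y hy =>
    (hf'.2.continuousOn).continuousAt (hVo.mem_nhds hy)
  refine hV.subset_of_closure_inter_subset (isOpen_setOfPred_eventually_nhds) ⟨x, hx, hxf⟩ ?_
  rintro y ⟨hyc, hyV⟩
  have hfy : f y = f' y := by
    have hfr : ∃ᶠ z in 𝓝 y, f z = f' z := by
      have := mem_closure_iff_frequently.1 hyc
      refine this.mono fun z hz => ?_
      have hz' : f =ᶠ[𝓝 z] f' := hz
      exact hz'.self_of_nhds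
    exact tendsto_nhds_unique_of_frequently_eq (hcont y hyV) (hcont' y hyV) hfr
  set e := extChartAt 𝓘(ℂ, Fin n → ℂ) (f y) with he
  have hsrc : e.source ∈ 𝓝 (f y) := extChartAt_source_mem_nhds (f y)
  have hsrc' : e.source ∈ 𝓝 (f' y) := by rw [← hfy]; exact hsrc
  have hN : V ∩ (f ⁻¹' e.source ∩ f' ⁻¹' e.source) ∈ 𝓝 y :=
    inter_mem (hVo.mem_nhds hyV) (inter_mem (hcont y hyV hsrc) (hcont' y hyV hsrc'))
  obtain ⟨r, hr, hball⟩ := Metric.mem_nhds_iff.1 hN
  have hdiff : ∀ F : Cn n → M, MDifferentiableOn 𝓘(ℂ, Fin n → ℂ) 𝓘(ℂ, Fin n → ℂ) F V →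
      (∀ z ∈ ball y r, F z ∈ e.source) → DifferentiableOn ℂ (e ∘ F) (ball y r) := by
    intro F hF hs
    rw [← mdifferentiableOn_iff_differentiableOn]
    intro z hz
    have hzV : z ∈ V := (hball hz).1
    have h1 : MDifferentiableAt 𝓘(ℂ, Fin n → ℂ) 𝓘(ℂ, Fin n → ℂ) F z :=
      (hF z hzV).mdifferentiableAt (hVo.mem_nhds hzV)
    have h2 : MDifferentiableAt 𝓘(ℂ, Fin n → ℂ) 𝓘(ℂ, Fin n → ℂ) e (F z) :=
      mdifferentiableAt_extChartAt (by
        have := hs z hz
        rwa [he, extChartAt_source] at this)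
    exact (h2.comp z h1).mdifferentiableWithinAt
  have hd := hdiff f hf.2 fun z hz => (hball hz).2.1
  have hd' := hdiff f' hf'.2 fun z hz => (hball hz).2.2
  obtain ⟨z₀, hz₀b, hz₀⟩ := mem_closure_iff_nhds.1 hyc (ball y r) (ball_mem_nhds y hr)
  have hz₀' : (e ∘ f) =ᶠ[𝓝 z₀] (e ∘ f') := by
    have h3 : f =ᶠ[𝓝 z₀] f' := hz₀
    exact h3.fun_comp e
  have hEq := eqOn_convex (convex_ball y r) isOpen_ball hd hd' hz₀b hz₀'
  show f =ᶠ[𝓝 y] f'
  filter_upwards [ball_mem_nhds y hr] with z hz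
  exact e.injOn (hball hz).2.1 (hball hz).2.2 (hEq hz)

end Pool.Agent.Helper89.SP
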