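import Pool.Agent.Helper82.SP.GoalsC

/-!
# Packet SP-HBS (MP_db6300_gt): the half ball has the static property and is not a ball
-/

set_option autoImplicit false

namespace Pool.Agent.Helper89.SP

open Matrix Real
open Pool.Agent.Helper26.LU (V M3 SO3 nrm sph proj Bm Rot crossM dot_mulVec)
open Pool.Agent.Helper82.SP

theorem goalHBS (h : G_HBF) : G_HBS := by
  intro v a hT
  obtain ⟨ha, hd⟩ := hT
  obtain ⟨-, -, hfr⟩ := h a ha
  constructor
  · intro R hR
    obtain ⟨i0, -, hi0⟩ := Finset.exists_min_image Finset.univ (fun i ↦ (R *ᵥ v i) 2)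
      ⟨(0 : Fin 4), Finset.mem_univ _⟩
    refine ⟨-(R *ᵥ v i0), fun i ↦ ?_⟩
    rw [hfr]
    have h1 : R *ᵥ v i + -(R *ᵥ v i0) = R *ᵥ (v i - v i0) := by
      rw [Matrix.mulVec_sub, sub_eq_add_neg]
    have h2 : 0 ≤ (R *ᵥ v i + -(R *ᵥ v i0)) 2 := by
      have h3 := hi0 i (Finset.mem_univ i)
      rw [Pi.add_apply, Pi.neg_apply]
      linarith
    by_cases hi : i = i0
    · subst hi
      have h4 : R *ᵥ v i + -(R *ᵥ v i) = 0 := add_neg_cancel _
      rw [h4]
      refine ⟨⟨?_, ?_⟩, Or.inl rfl⟩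
      · rw [zero_dotProduct]
        positivity
      · exact le_refl _
    · have h5 : (R *ᵥ v i + -(R *ᵥ v i0)) ⬝ᵥ (R *ᵥ v i + -(R *ᵥ v i0)) = a ^ 2 := by
        rw [h1, dot_mulVec hR, hd i i0 hi]
      exact ⟨⟨h5.le, h2⟩, Or.inr h5⟩
  · intro c r hc
    have hm : ∀ s : ℝ, 0 ≤ s → s ≤ a → s * s - 2 * s * c 0 + (c ⬝ᵥ c - r) = 0 := by
      intro s hs0 hsa
      have h6 : (![s, 0, 0] : V) ∈ frontier (half a) := by
        rw [hfr]
        refine ⟨⟨?_, ?_⟩, Or.inl ?_⟩
        · simp only [dotProduct, Fin.sum_univ_three, Matrix.cons_val_zero, Matrix.cons_val_one,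
            Matrix.cons_val, mul_zero, add_zero]
          nlinarith
        · simp
        · simp
      rw [hc] at h6
      have h7 : ((![s, 0, 0] : V) - c) ⬝ᵥ (![s, 0, 0] - c) = r := h6
      simp only [dotProduct, Fin.sum_univ_three, Pi.sub_apply, Matrix.cons_val_zero,
        Matrix.cons_val_one, Matrix.cons_val] at h7 ⊢
      linarith
    have m0 := hm 0 le_rfl ha.le
    have m1 := hm (a / 2) (by positivity) (by linarith)
    have m2 := hm a ha.le le_rfl
    nlinarith

end Pool.Agent.Helper89.SP
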